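import Pool.Agent.Lib.SB97.Blue

/-! Row ARITH: choice of the parameters. -/

namespace Pool.Agent.Lib.SB97

namespace ARITH

lemma pow_four_le (n : ℕ) (h : 16 ≤ n) : n ^ 4 ≤ 2 ^ n := by
  induction n, h using Nat.le_induction with
  | base => norm_num
  | succ n hn ih =>
    have h1 : 16 * (n + 1) ≤ 17 * n := by omega
    have h2 : (16 * (n + 1)) ^ 4 ≤ (17 * n) ^ 4 := Nat.pow_le_pow_left h1 4
    rw [mul_pow, mul_pow] at h2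
    rw [pow_succ 2 n]
    omega

lemma sq_mul_le (n N : ℕ) (h : 2 * N + 16 ≤ n) : n ^ 2 * 2 ^ N ≤ 2 ^ n := by
  have h1 := pow_four_le n (by omega)
  have h2 : 2 ^ (2 * N) ≤ 2 ^ n := Nat.pow_le_pow_right (by norm_num) (by omega)
  have h3 : (n ^ 2 * 2 ^ N) ^ 2 ≤ (2 ^ n) ^ 2 := by
    calc (n ^ 2 * 2 ^ N) ^ 2 = n ^ 4 * 2 ^ (2 * N) := by ring
      _ ≤ 2 ^ n * 2 ^ n := Nat.mul_le_mul h1 h2
      _ = (2 ^ n) ^ 2 := by ring
  exact (Nat.pow_le_pow_iff_left (by norm_num)).1 h3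

lemma third (C₀ m a ρ : ℕ) (h : 2 * (9 + 2 * (1 + C₀ + m) + a) + 16 ≤ ρ) :
    400 * (2 * C₀ * 2 ^ m * ρ) ^ 2 * 2 ^ a ≤ 2 ^ ρ := by
  have h1 := sq_mul_le ρ _ h
  have h2 : C₀ ≤ 2 ^ C₀ := Nat.lt_two_pow_self.le
  have h3 : 2 * C₀ * 2 ^ m * ρ ≤ 2 * 2 ^ C₀ * 2 ^ m * ρ :=
    Nat.mul_le_mul_right _ (Nat.mul_le_mul_right _ (Nat.mul_le_mul_left _ h2))
  calc 400 * (2 * C₀ * 2 ^ m * ρ) ^ 2 * 2 ^ a
      ≤ 512 * (2 * 2 ^ C₀ * 2 ^ m * ρ) ^ 2 * 2 ^ a :=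
        Nat.mul_le_mul_right _ (Nat.mul_le_mul (by norm_num) (Nat.pow_le_pow_left h3 2))
    _ = ρ ^ 2 * 2 ^ (9 + 2 * (1 + C₀ + m) + a) := by ring
    _ ≤ 2 ^ ρ := h1

lemma fourth (C₀ m n ρ : ℕ) :
    ((4 * C₀ + 6) * 2 ^ m) ^ n * ρ ≤ 2 ^ ((4 * C₀ + 6 + m) * n + ρ) := by
  have h1 : 4 * C₀ + 6 ≤ 2 ^ (4 * C₀ + 6) := Nat.lt_two_pow_self.le
  have h2 : ρ ≤ 2 ^ ρ := Nat.lt_two_pow_self.le
  have h3 : (4 * C₀ + 6) * 2 ^ m ≤ 2 ^ (4 * C₀ + 6 + m) := by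
    rw [pow_add 2 (4 * C₀ + 6) m]
    exact Nat.mul_le_mul_right _ h1
  rw [pow_add 2 _ ρ, pow_mul]
  exact Nat.mul_le_mul (Nat.pow_le_pow_left h3 n) h2

lemma expo (C₀ e k : ℕ) (hk : 1 ≤ k) :
    (4 * C₀ + 6 + (5 + (e + 12 * k) * (144 * k + 59))) * (6 * k + 1) +
      (2 * (9 + 2 * (1 + C₀ + (5 + (e + 12 * k) * (144 * k + 59))) +
        (e + 12 * k) * (72 * k + 37)) + 16) ≤
      (7 * (4 * C₀ + 11 + (e + 12) * 203) +
        (2 * (9 + 2 * (6 + C₀ + (e + 12) * 203) + (e + 12) * 109) + 16)) * k ^ 3 := by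
  obtain ⟨j, rfl⟩ := Nat.exists_eq_add_of_le hk
  have hE : e + 12 * (1 + j) ≤ (e + 12) * (1 + j) := by nlinarith [Nat.zero_le (e * j)]
  have h2 : 1 ≤ (1 + j) ^ 2 := Nat.one_le_pow _ _ (by omega)
  have h23 : (1 + j) ^ 2 ≤ (1 + j) ^ 3 := Nat.pow_le_pow_right (by omega) (by omega)
  have a1 : (e + 12 * (1 + j)) * (144 * (1 + j) + 59) ≤ (e + 12) * 203 * (1 + j) ^ 2 := by
    calc _ ≤ ((e + 12) * (1 + j)) * (203 * (1 + j)) := Nat.mul_le_mul hE (by omega)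
      _ = _ := by ring
  have a2 : (e + 12 * (1 + j)) * (72 * (1 + j) + 37) ≤ (e + 12) * 109 * (1 + j) ^ 2 := by
    calc _ ≤ ((e + 12) * (1 + j)) * (109 * (1 + j)) := Nat.mul_le_mul hE (by omega)
      _ = _ := by ring
  have c1 : ∀ c : ℕ, c ≤ c * (1 + j) ^ 2 := fun c => Nat.le_mul_of_pos_right c h2
  have b1 : 4 * C₀ + 6 + (5 + (e + 12 * (1 + j)) * (144 * (1 + j) + 59)) ≤
      (4 * C₀ + 11 + (e + 12) * 203) * (1 + j) ^ 2 := by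
    have := c1 (4 * C₀ + 11)
    rw [add_mul (4 * C₀ + 11)]
    omega
  have b2 : 2 * (9 + 2 * (1 + C₀ + (5 + (e + 12 * (1 + j)) * (144 * (1 + j) + 59))) +
        (e + 12 * (1 + j)) * (72 * (1 + j) + 37)) + 16 ≤
      (2 * (9 + 2 * (6 + C₀ + (e + 12) * 203) + (e + 12) * 109) + 16) * (1 + j) ^ 2 := by
    have h := c1 (4 * C₀ + 58)
    have e1 : (2 * (9 + 2 * (6 + C₀ + (e + 12) * 203) + (e + 12) * 109) + 16) * (1 + j) ^ 2 =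
        (4 * C₀ + 58) * (1 + j) ^ 2 + 4 * ((e + 12) * 203 * (1 + j) ^ 2) +
          2 * ((e + 12) * 109 * (1 + j) ^ 2) := by ring
    rw [e1]
    omega
  have b3 := Nat.mul_le_mul b1 (show 6 * (1 + j) + 1 ≤ 7 * (1 + j) by omega)
  have b4 := b2.trans (Nat.mul_le_mul_left _ h23)
  rw [add_mul (7 * (4 * C₀ + 11 + (e + 12) * 203))]
  refine Nat.add_le_add (b3.trans (le_of_eq ?_)) b4
  ring

end ARITH

theorem bARITH : St_ARITH := by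
  intro c₀ C₀ h0 _
  obtain ⟨e, he⟩ := exists_pow_lt_of_lt_one h0 (show (1 / 2 : ℝ) < 1 by norm_num)
  refine ⟨7 * (4 * C₀ + 11 + (e + 12) * 203) +
    (2 * (9 + 2 * (6 + C₀ + (e + 12) * 203) + (e + 12) * 109) + 16), fun k hk => ?_⟩
  have hθ : (1 / 2 : ℝ) ^ (e + 12 * k) ≤ c₀ / 4 ^ (6 * k) := by
    have h4 : (4 : ℝ) ^ (6 * k) = 2 ^ (12 * k) := by
      rw [show (4 : ℝ) = 2 ^ 2 by norm_num, ← pow_mul]
      congr 1
      ring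
    rw [h4, pow_add, le_div_iff₀ (by positivity), mul_assoc, ← mul_pow]
    norm_num
    simpa using he.le
  have hp : ∀ n : ℕ, (1 / 2 : ℝ) ^ ((e + 12 * k) * n) ≤ (c₀ / 4 ^ (6 * k)) ^ n := fun n => by
    rw [pow_mul]
    exact pow_le_pow_left₀ (by positivity) hθ n
  have hinv : ∀ n : ℕ, (1 / 2 : ℝ) ^ n * 2 ^ n = 1 := fun n => by
    rw [← mul_pow]
    norm_num
  refine ⟨2 ^ (5 + (e + 12 * k) * (144 * k + 59)),
    2 * (9 + 2 * (1 + C₀ + (5 + (e + 12 * k) * (144 * k + 59))) +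
      (e + 12 * k) * (72 * k + 37)) + 16, by omega, ?_, fun ρ hρ => ?_, ?_⟩
  · have h1 := hp (144 * k + 59)
    have h2 := hinv ((e + 12 * k) * (144 * k + 59))
    have h3 : (0 : ℝ) < 2 ^ ((e + 12 * k) * (144 * k + 59)) := by positivity
    have h4 := mul_le_mul_of_nonneg_right h1 h3.le
    rw [h2] at h4
    rw [Nat.cast_pow, Nat.cast_ofNat, pow_add (2 : ℝ) 5, mul_left_comm]
    linarith
  · have h1 := ARITH.third C₀ _ _ ρ hρ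
    have h2 : (400 : ℝ) *
        (2 * (C₀ : ℝ) * ((2 ^ (5 + (e + 12 * k) * (144 * k + 59)) : ℕ) : ℝ) * ρ) ^ 2 *
        2 ^ ((e + 12 * k) * (72 * k + 37)) ≤ 2 ^ ρ := by exact_mod_cast h1
    refine le_trans ?_ (hp (72 * k + 37))
    rw [one_div_pow, one_div_pow, mul_one_div, div_le_div_iff₀ (by positivity) (by positivity),
      one_mul]
    exact h2
  · exact (ARITH.fourth C₀ _ _ _).trans
      (Nat.pow_le_pow_right (by norm_num) (ARITH.expo C₀ e k hk))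

end Pool.Agent.Lib.SB97
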