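import Pool.Agent.Lib.SB97.Blue

/-! Row DICH: gain at once, or split at many edges. -/

namespace Pool.Agent.Lib.SB97

open MeasureTheory ProbabilityTheory Filter Topology Finset Pool.Agent.Lib.FP95
open Pool.Agent.Lib.MP_eba68f_pr hiding Nice
open Pool.Agent.Lib.SL94 (SW T Sys)
open scoped NNReal ENNReal

theorem bDICH (hQ : St_QUANT) (hP : St_PEI) (hD : St_DET) (hM : St_MARK) : St_DICH := by
  classical
  intro p hr u v M w α θ t H hM1 hw hα hα2 hA hq hd hs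
  by_cases hG : α / 2 ≤ p.pr {τ | T τ u v ≤ t - H + p.d / 2}
  · exact Or.inl hG
  right
  have h0 : 0 < α * θ := mul_pos hα hA.1
  have h1 : α * θ < 1 := by nlinarith [hA.2.1]
  choose a ha using fun y => hQ p.toPar u y (α * θ) h0 h1
  choose b hb using fun z => hQ p.toPar v z (α * θ) h0 h1
  have k1 := hM p u v M w a b α θ t H hM1 hw hα hA (fun y => (ha y).1) (fun z => (hb z).1) hq.1
  set n : ℝ := (((M + 1) * w : ℕ) : ℝ) with hn
  have hM' : (1 : ℝ) ≤ M := by exact_mod_cast hM1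
  have hw' : (2 : ℝ) ≤ w := by exact_mod_cast hw
  have hn0 : 0 ≤ n := Nat.cast_nonneg _
  have hn1 : 2 * n + 1 ≤ 5 * ((M : ℝ) * w) := by
    rw [hn]
    push_cast
    nlinarith
  have k2 : p.pr (⋃ y ∈ (FP95.ball n).image (· + u), Light p.hi y (w - 1)) ≤ α / 8 := by
    refine (p.pr_biUnion_le _ _).trans ?_
    refine (sum_le_card_nsmul _ _ ((1 / 2 : ℝ) ^ (w - 1)) fun y _ => hP p.toPar p.hi hr y _).trans ?_
    rw [nsmul_eq_mul]
    have c1 : (((FP95.ball n).image (· + u)).card : ℝ) ≤ (FP95.ball n).card := by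
      exact_mod_cast card_image_le
    have c2 := card_ball hn0
    have c3 : (2 * n + 1) ^ 2 ≤ (5 * ((M : ℝ) * w)) ^ 2 := by gcongr
    have c4 := mul_le_mul_of_nonneg_right (c1.trans (c2.trans c3))
      (by positivity : (0 : ℝ) ≤ (1 / 2) ^ (w - 1))
    nlinarith
  obtain ⟨τ, t1, t2, t3, t4⟩ : ∃ τ : Cfg, T τ u v ≤ t ∧ ¬T τ u v ≤ t - H + p.d / 2 ∧
      ¬M * (w - 1) ≤ 4 * (cnt p u v a (Dt u ((M + 1) * w)) τ +
        cnt p v u b (Dt u ((M + 1) * w)) τ) ∧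
      τ ∉ ⋃ y ∈ (FP95.ball n).image (· + u), Light p.hi y (w - 1) := by
    by_contra hc
    have hsub : {τ : Cfg | T τ u v ≤ t} ⊆ ({τ | T τ u v ≤ t - H + p.d / 2} ∪
        {τ | (t - H + p.d / 2 ≤ T τ u v ∧ T τ u v ≤ t) ∧ M * (w - 1) ≤
          4 * (cnt p u v a (Dt u ((M + 1) * w)) τ + cnt p v u b (Dt u ((M + 1) * w)) τ)}) ∪
        ⋃ y ∈ (FP95.ball n).image (· + u), Light p.hi y (w - 1) := by
      intro τ hτ
      by_contra hn'
      simp only [Set.mem_union, not_or] at hn'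
      exact hc ⟨τ, hτ, hn'.1.1, fun h => hn'.1.2 ⟨⟨le_of_not_ge hn'.1.1, hτ⟩, h⟩, hn'.2⟩
    have e1 := (p.pr_mono hsub).trans (p.pr_union_le _ _)
    have e2 := p.pr_union_le {τ | T τ u v ≤ t - H + p.d / 2}
      {τ | (t - H + p.d / 2 ≤ T τ u v ∧ T τ u v ≤ t) ∧ M * (w - 1) ≤
        4 * (cnt p u v a (Dt u ((M + 1) * w)) τ + cnt p v u b (Dt u ((M + 1) * w)) τ)}
    linarith [hq.2, not_le.1 hG]
  obtain ⟨S, y, z, hS, h⟩ := hD p τ u v M w a b hw hd
    (fun y hy hL => t4 (Set.mem_biUnion (show y ∈ (((FP95.ball n).image (· + u) : Finset V) : Set V)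
      from mem_coe.2 (mem_image.2 ⟨y - u, mem_ball hy, sub_add_cancel _ _⟩)) hL))
    (le_of_not_ge t3)
  refine ⟨S, y, z, fun i => a (y i), fun i => b (z i), hS, fun i hi => ?_⟩
  obtain ⟨j1, j2, j3, j4, j5, j6⟩ := h i hi
  refine ⟨j1, j2, j3, j4, j5, ha _, ?_, by linarith⟩
  have := hb (z i)
  simpa only [Qt, SL94.T_comm _ v (z i)] using this

end Pool.Agent.Lib.SB97
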