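import Pool.Agent.Lib.SB97.Blue

/-! The set of directed edges near a site: membership and size. -/

namespace Pool.Agent.Lib.SB97

open MeasureTheory ProbabilityTheory Filter Topology Finset Pool.Agent.Lib.FP95
open Pool.Agent.Lib.MP_eba68f_pr hiding Nice
open Pool.Agent.Lib.SL94 (SW T Sys)
open scoped NNReal ENNReal

namespace DT

lemma mem (u : V) (n : ℕ) (y z : V) :
    (y, z) ∈ Dt u n ↔ G.Adj y z ∧ n1 (y - u) ≤ n ∧ n1 (z - u) ≤ n := by
  simp only [Dt, mem_biUnion, mem_filter, mem_image, Prod.mk.injEq, mem_nb]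
  constructor
  · rintro ⟨⟨y', -, z', h3, rfl, rfl⟩, h1, h2⟩
    exact ⟨h3, h1, h2⟩
  · rintro ⟨h3, h1, h2⟩
    exact ⟨⟨y, ⟨y - u, mem_ball h1, sub_add_cancel y u⟩, z, h3, rfl, rfl⟩, h1, h2⟩

lemma card (u : V) (n : ℕ) : ((Dt u n).card : ℝ) ≤ 4 * (2 * (n : ℝ) + 1) ^ 2 := by
  classical
  have h1 : (Dt u n).card ≤ (FP95.ball n).card * 4 := by
    unfold Dt
    refine (card_filter_le _ _).trans ?_
    refine (card_biUnion_le_card_mul _ _ 4 fun y _ =>
      card_image_le.trans (SL94.card_nb y)).trans ?_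
    exact Nat.mul_le_mul_right _ card_image_le
  have h2 := card_ball (t := (n : ℝ)) (Nat.cast_nonneg n)
  have h4 : ((Dt u n).card : ℝ) ≤ (FP95.ball n).card * 4 := by exact_mod_cast h1
  linarith

end DT

theorem bDT : St_DT := fun u n => ⟨DT.mem u n, DT.card u n⟩

end Pool.Agent.Lib.SB97
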