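import Pool.Agent.Lib.SB97.Blue
import Pool.Agent.Lib.SL.Har95

/-! Positive correlation of lower sets for the full product measure. -/

namespace Pool.Agent.Lib.SB97

theorem bHAR : St_HAR := fun p _ _ a b c d => Pool.Agent.Lib.SL.H95.lowerP p a b c d

end Pool.Agent.Lib.SB97
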