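import Pool.Agent.Lib.SB97.Blue
import Pool.Agent.Lib.SL94.B_SEG

/-! Localisation of the event that a passage time is small. -/

namespace Pool.Agent.Lib.SB97

open MeasureTheory ProbabilityTheory Finset SimpleGraph Pool.Agent.Lib.FP95
open Pool.Agent.Lib.MP_eba68f_pr hiding Nice
open Pool.Agent.Lib.SL94 (SW T Sys T_le_SW SW_le_SW SW_congr meas_SW exists_lt)
open scoped NNReal ENNReal

namespace LOC

/-- some walk with at most `R` steps has weight below `c` -/
def Phi (y z : V) (c : ℝ) (R : ℕ) : Set Cfg :=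
  {τ | ∃ q : G.Walk y z, q.length ≤ R ∧ SW τ q.edges < c}

theorem Phi_sub (y z : V) (c : ℝ) (R : ℕ) : Phi y z c R ⊆ {τ | T τ y z < c} :=
  fun τ ⟨q, _, hq⟩ => (T_le_SW τ q).trans_lt hq

theorem Phi_lower (y z : V) (c : ℝ) (R : ℕ) : IsLowerSet (Phi y z c R) :=
  fun _ _ h ⟨q, h1, h2⟩ => ⟨q, h1, (SW_le_SW fun e _ => h e).trans_lt h2⟩

theorem Phi_meas (y z : V) (c : ℝ) (R : ℕ) : MeasurableSet (Phi y z c R) := by
  have : Phi y z c R = ⋃ q : G.Walk y z, ⋃ _ : q.length ≤ R, {τ | SW τ q.edges < c} := by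
    ext τ
    simp [Phi]
  rw [this]
  exact MeasurableSet.iUnion fun q => MeasurableSet.iUnion fun _ =>
    measurableSet_lt (meas_SW _) measurable_const

theorem edge_near {y z : V} (q : G.Walk y z) {e : Sym2 V} (he : e ∈ q.edges) :
    e ∈ near y q.length := by
  classical
  intro v hv
  have hs : v ∈ q.support := by
    induction e using Sym2.ind with
    | _ a b =>
      rcases Sym2.mem_iff.1 hv with rfl | rfl
      · exact q.fst_mem_support_of_mem_edges he
      · exact q.snd_mem_support_of_mem_edges he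
  exact (n1_le_length (q.takeUntil v hs)).trans (by exact_mod_cast q.length_takeUntil_le_length hs)

theorem Phi_dep (y z : V) (c : ℝ) (R : ℕ) {τ τ' : Cfg} (h : ∀ e ∈ near y R, τ e = τ' e)
    (hτ : τ ∈ Phi y z c R) : τ' ∈ Phi y z c R := by
  obtain ⟨q, h1, h2⟩ := hτ
  refine ⟨q, h1, ?_⟩
  rwa [← SW_congr (τ := τ) fun e he => h e fun v hv =>
    (edge_near q he v hv).trans (by exact_mod_cast h1)]

theorem sub_Phi (hi : ℝ≥0) (y z : V) {c : ℝ} {R : ℕ} (hc : 2 * c ≤ hi * R) :
    {τ | T τ y z < c} ⊆ Phi y z c R ∪ Light hi y R := by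
  classical
  intro τ hτ
  obtain ⟨q, hp, hq⟩ := exists_lt hτ
  by_cases hl : q.length ≤ R
  · exact Or.inl ⟨q, hl, hq⟩
  refine Or.inr ⟨q.getVert, q.getVert_zero, ⟨fun j hj => q.adj_getVert_succ (by omega),
    fun i j hi hj h => hp.getVert_injOn (show i ≤ q.length by omega)
      (show j ≤ q.length by omega) h⟩, ?_⟩
  by_contra hn
  set L := (range R).filter fun j => τ s(q.getVert j, q.getVert (j + 1)) ≤ hi with hL
  set H := (range R).filter fun j => ¬ τ s(q.getVert j, q.getVert (j + 1)) ≤ hi with hH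
  have h1 : L.card + H.card = R := by
    rw [hL, hH, card_filter_add_card_filter_not, card_range]
  have h2 : (R : ℝ) ≤ 2 * H.card := by exact_mod_cast (by omega : R ≤ 2 * H.card)
  have h3 : (H.card : ℝ) * hi ≤ SW τ q.edges := by
    rw [SL94.SEG.SW_eq, ← nsmul_eq_mul]
    refine (card_nsmul_le_sum H _ _ fun j hj => ?_).trans (sum_le_sum_of_subset_of_nonneg
      ((filter_subset _ _).trans (range_subset_range.2 (by omega))) fun j _ _ => NNReal.coe_nonneg _)
    exact NNReal.coe_le_coe.2 (not_le.1 (mem_filter.1 hj).2).le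
  have h4 := mul_le_mul_of_nonneg_left h2 hi.coe_nonneg
  linarith

end LOC

theorem bLOC (hP : St_PEI) : St_LOC := by
  intro p hr z y c L hc
  refine ⟨LOC.Phi z y c L, LOC.Phi_meas z y c L, LOC.Phi_lower z y c L,
    fun τ τ' h => LOC.Phi_dep z y c L h, fun τ h => LOC.Phi_sub z y c L h, ?_⟩
  have h1 := hP p.toPar p.hi hr z L
  have h2 := (p.pr_mono (LOC.sub_Phi p.hi z y hc)).trans (p.pr_union_le _ _)
  linarith

end Pool.Agent.Lib.SB97
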