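import Pool.Agent.Lib.SB97.Blue

/-! Row MARK: few marked edges on the window event. -/

namespace Pool.Agent.Lib.SB97

open MeasureTheory ProbabilityTheory Filter Topology Finset Pool.Agent.Lib.FP95
open Pool.Agent.Lib.MP_eba68f_pr hiding Nice
open Pool.Agent.Lib.SL94 (SW T Sys)
open scoped NNReal ENNReal

namespace MARK

/-- number of marked edges, counted on the event `W` only -/
noncomputable def fW (p : Sys) (o x : V) (a : V → ℝ) (I : Finset (V × V)) (W : Set Cfg)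
    (τ : Cfg) : ℝ := ∑ i ∈ I, (p.Ev o x a i.1 i.2 ∩ W).indicator (fun _ => (1 : ℝ)) τ

lemma fW_eq (p : Sys) (o x : V) (a : V → ℝ) (I : Finset (V × V)) {W : Set Cfg} {τ : Cfg}
    (h : τ ∈ W) : fW p o x a I W τ = cnt p o x a I τ := by
  classical
  unfold cnt fW
  rw [card_filter]
  push_cast
  refine sum_congr rfl fun i _ => ?_
  by_cases h' : τ ∈ p.Ev o x a i.1 i.2 <;> simp [h, h']

lemma fW_nonneg (p : Sys) (o x : V) (a : V → ℝ) (I : Finset (V × V)) (W : Set Cfg) (τ : Cfg) :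
    0 ≤ fW p o x a I W τ :=
  sum_nonneg fun _ _ => Set.indicator_nonneg (fun _ _ => zero_le_one) τ

lemma fW_int (p : Sys) (o x : V) (a : V → ℝ) (I : Finset (V × V)) {W : Set Cfg}
    (hW : MeasurableSet W) : Integrable (fW p o x a I W) p.P ∧
      ∫ τ, fW p o x a I W τ ∂p.P = ∑ i ∈ I, p.pr (p.Ev o x a i.1 i.2 ∩ W) := by
  have h : ∀ i ∈ I, Integrable ((p.Ev o x a i.1 i.2 ∩ W).indicator fun _ => (1 : ℝ)) p.P :=
    fun i _ => (integrable_const (1 : ℝ)).indicator ((p.Ev_meas o x a i.1 i.2).inter hW)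
  unfold fW
  refine ⟨integrable_finsetSum _ h, ?_⟩
  rw [integral_finsetSum _ h]
  exact sum_congr rfl fun i _ => p.int_ind ((p.Ev_meas o x a i.1 i.2).inter hW)

lemma one (hM : St_MART) (p : Sys) (o x : V) (a : V → ℝ) {α θ t H N : ℝ} (I : Finset (V × V))
    (hα : 0 < α) (hA : Adm p θ H) (ha : ∀ y, p.pr {τ | T τ o y < a y} ≤ α * θ)
    (ht : p.pr {τ | T τ o x < t} ≤ α) (hI : ∀ i ∈ I, G.Adj i.1 i.2) (hN : 0 < N)
    (hc : (I.card : ℝ) ≤ 100 * N ^ 2) :
    ∑ i ∈ I, p.pr (p.Ev o x a i.1 i.2 ∩ {τ | t - H + p.d / 2 ≤ T τ o x ∧ T τ o x ≤ t}) ≤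
      N * α / 128 := by
  obtain ⟨θ0, -, H0, h⟩ := hA
  have c0 : 0 < p.q * p.d := mul_pos p.q_pos' p.d_pos
  have s0 : 0 < √θ := Real.sqrt_pos.2 θ0
  have es : √θ * √θ = θ := Real.mul_self_sqrt θ0.le
  have key := hM p o x a (α * θ) α t H (10 * N * √θ / H) I (by positivity) H0.le ha ht hI
  generalize √θ = s at *
  subst es
  have h1 : 2560 * H * s ≤ p.q * p.d :=
    abs_le_of_sq_le_sq' (by linarith) c0.le |>.2
  have e3 := mul_le_mul_of_nonneg_left hc
    (show 0 ≤ α * (s * s) / (2 * (10 * N * s / H)) by positivity)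
  have e4 : α * (s * s) / (2 * (10 * N * s / H)) * (100 * N ^ 2) = 5 * (H * s * (N * α)) := by
    field_simp
    ring
  have e5 : 10 * N * s / H / 2 * (H ^ 2 * α) = 5 * (H * s * (N * α)) := by
    field_simp
    ring
  have e6 := mul_le_mul_of_nonneg_right h1 (show 0 ≤ N * α by positivity)
  refine le_of_mul_le_mul_left ?_ (half_pos c0)
  linarith

end MARK

open MARK in
theorem bMARK (hM : St_MART) (hD : St_DT) : St_MARK := by
  intro p u v M w a b α θ t H hM1 hw hα hA ha hb ht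
  obtain ⟨d1, d2⟩ := hD u ((M + 1) * w)
  have M1 : (1 : ℝ) ≤ M := by exact_mod_cast hM1
  have w2 : (2 : ℝ) ≤ w := by exact_mod_cast hw
  have N2 : (2 : ℝ) * M ≤ M * w := by nlinarith
  have N3 : (w : ℝ) ≤ M * w := by nlinarith
  have hc : ((Dt u ((M + 1) * w)).card : ℝ) ≤ 100 * ((M : ℝ) * w) ^ 2 := by
    refine d2.trans ?_
    have : 2 * ((((M + 1) * w : ℕ)) : ℝ) + 1 ≤ 5 * (M * w) := by
      push_cast
      linarith
    have := pow_le_pow_left₀ (by positivity) this 2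
    linarith
  have hI : ∀ i ∈ Dt u ((M + 1) * w), G.Adj i.1 i.2 := fun i hi => ((d1 i.1 i.2).1 hi).1
  have e : ∀ τ, T τ v u = T τ u v := fun τ => SL94.T_comm τ v u
  have s1 := one hM p u v a _ hα hA ha ht hI (by linarith) hc
  have s2 := one hM p v u b (t := t) _ hα hA hb (by simpa only [e] using ht) hI (by linarith) hc
  simp only [e] at s2
  have hW : MeasurableSet {τ | t - H + p.d / 2 ≤ T τ u v ∧ T τ u v ≤ t} :=
    (measurableSet_le measurable_const (SL94.T_meas u v)).inter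
      (measurableSet_le (SL94.T_meas u v) measurable_const)
  obtain ⟨i1, j1⟩ := fW_int p u v a (Dt u ((M + 1) * w)) hW
  obtain ⟨i2, j2⟩ := fW_int p v u b (Dt u ((M + 1) * w)) hW
  have m := mul_meas_ge_le_integral_of_nonneg (μ := p.P)
    (ae_of_all _ fun τ => add_nonneg (fW_nonneg _ _ _ _ _ _ τ) (fW_nonneg _ _ _ _ _ _ τ))
    (i1.add i2) (M * w / 8)
  rw [integral_add i1 i2, j1, j2] at m
  refine le_of_mul_le_mul_left (a := (M : ℝ) * w / 8) (le_trans (mul_le_mul_of_nonneg_left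
    (p.pr_mono fun τ hτ => ?_) (by linarith)) (m.trans (by linarith))) (by linarith)
  have h1 : ((M * (w - 1) : ℕ) : ℝ) ≤ 4 * (cnt p u v a (Dt u ((M + 1) * w)) τ +
      cnt p v u b (Dt u ((M + 1) * w)) τ) := by exact_mod_cast hτ.2
  rw [Nat.cast_mul, Nat.cast_sub (by omega), Nat.cast_one] at h1
  show (M : ℝ) * w / 8 ≤ fW _ _ _ _ _ _ τ + fW _ _ _ _ _ _ τ
  rw [fW_eq _ _ _ _ _ hτ.1, fW_eq _ _ _ _ _ hτ.1]
  linarith

end Pool.Agent.Lib.SB97
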