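import Pool.Agent.Lib.SB97.Blue
import Pool.Agent.Lib.SL94.B_MART

/-! Row MART: the martingale bound for the clamped passage time. -/

namespace Pool.Agent.Lib.SB97

open MeasureTheory ProbabilityTheory Filter Topology Function Finset Pool.Agent.Lib.FP95
open Pool.Agent.Lib.MP_eba68f_pr hiding Nice
open Pool.Agent.Lib.SL94 (SW T Sys T_meas T_tri T_adj T_mono meas_lt)
open Pool.Agent.Lib.SL94.MART
open scoped NNReal ENNReal

namespace MART

/-- the clamp, centred at the top of the window -/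
noncomputable def ψ (t H u : ℝ) : ℝ := max (-H) (min (u - t) 0)

lemma ψ_mono (t H : ℝ) : Monotone (ψ t H) := fun _ _ h =>
  max_le_max le_rfl (min_le_min (by linarith) le_rfl)

lemma ψ_abs (t : ℝ) {H : ℝ} (hH : 0 ≤ H) (u : ℝ) : |ψ t H u| ≤ H :=
  abs_le.2 ⟨le_max_left _ _, max_le (by linarith) ((min_le_right _ _).trans hH)⟩

lemma ψ_top {t H u : ℝ} (hH : 0 ≤ H) (h : t ≤ u) : ψ t H u = 0 := by
  unfold ψ
  rw [min_eq_right (by linarith), max_eq_right (by linarith)]

lemma ψ_gain {t H u u' c : ℝ} (hc : 0 ≤ c) (h1 : t - H + c ≤ u) (h2 : u ≤ t) (h3 : u' ≤ u - c) :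
    ψ t H u' ≤ ψ t H u - c := by
  have e : ψ t H u = u - t := by
    unfold ψ
    rw [min_eq_left (by linarith), max_eq_right (by linarith)]
  rw [e]
  exact max_le (by linarith) ((min_le_left _ _).trans (by linarith))

lemma ψ_nice (t : ℝ) {H : ℝ} (hH : 0 ≤ H) (o x : V) : Nice fun τ => ψ t H (T τ o x) :=
  ⟨(ψ_mono t H).measurable.comp (T_meas o x), H, fun _ => ψ_abs t hH _⟩

lemma win_meas (o x : V) (c t : ℝ) : MeasurableSet {τ | c ≤ T τ o x ∧ T τ o x ≤ t} :=
  (measurableSet_le measurable_const (T_meas o x)).inter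
    (measurableSet_le (T_meas o x) measurable_const)

lemma cov (p : Sys) (o x : V) (a : V → ℝ) (t : ℝ) {H : ℝ} (hH : 0 ≤ H) {y z : V}
    (hadj : G.Adj y z) :
    p.q * p.d / 2 * p.pr (p.Ev o x a y z ∩ {τ | t - H + p.d / 2 ≤ T τ o x ∧ T τ o x ≤ t}) ≤
      ∫ τ, ψ t H (T τ o x) * xi p o a y z τ ∂p.P := by
  have nlo : Nice fun τ : Cfg => ψ t H (T (update τ s(y, z) p.lo) o x) :=
    (ψ_nice t hH o x).comp measurable_update_left
  have mE := (p.Ev_meas o x a y z).inter (win_meas o x (t - H + p.d / 2) t)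
  have h0 := orth p s(y, z)
    (f := fun τ => ψ t H (T (update τ s(y, z) p.lo) o x) * (A o a y z).indicator (fun _ => 1) τ)
    (nlo.mul (Nice.ind (A_meas o a y z))).1 fun τ h => by
      rw [(A_inv o a y z).ind h, update_idem]
  have i1 := ((nlo.mul (Nice.ind (A_meas o a y z))).mul (eta_nice p s(y, z))).int p.P
  have i2 := ((Nice.ind mE).int p.P).const_mul (p.q * p.d / 2)
  have e := integral_add i1 i2
  rw [h0, zero_add, integral_const_mul, p.int_ind mE] at e
  rw [← e]
  refine integral_mono (i1.add i2) (((ψ_nice t hH o x).mul (xi_nice p o a y z)).int _)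
    fun τ => ?_
  have hq := p.q_pos'
  have hq1 := p.q_le
  have hd := p.d_pos
  have hlo : (p.lo : ℝ) < p.hi := p.lo_lt
  have hd' : p.d = p.hi - p.lo := rfl
  simp only [xi]
  by_cases hE : τ ∈ p.Ev o x a y z ∩ {τ | t - H + p.d / 2 ≤ T τ o x ∧ T τ o x ≤ t}
  · obtain ⟨⟨k1, k2, k3⟩, w1, w2⟩ := id hE
    have k2' : (p.hi : ℝ) < τ s(y, z) := k2
    have hA : τ ∈ A o a y z := ⟨by linarith [T_tri τ o z x, p.lo.coe_nonneg], k3⟩
    have hl : p.lo < τ s(y, z) := p.lo_lt.trans k2
    have hle : update τ s(y, z) p.lo ≤ τ := update_le_self_iff.2 hl.le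
    have k4 := T_adj (update τ s(y, z) p.lo) hadj
    rw [update_self] at k4
    have k5 : T (update τ s(y, z) p.lo) o x ≤ T τ o x - p.d / 2 := by
      linarith [T_tri (update τ s(y, z) p.lo) o y x, T_tri (update τ s(y, z) p.lo) y z x,
        T_mono hle o y, T_mono hle z x]
    have k6 := ψ_gain (by positivity) w1 w2 k5
    simp only [Set.indicator_of_mem hE, Set.indicator_of_mem hA, eta_hi p hl]
    nlinarith
  · rw [Set.indicator_of_notMem hE]
    by_cases hA : τ ∈ A o a y z
    · rw [Set.indicator_of_mem hA]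
      rcases le_or_gt (τ s(y, z)) p.lo with hl | hl
      · have := ψ_mono t H (T_mono (le_update_self_iff.2 hl : τ ≤ update τ s(y, z) p.lo) o x)
        rw [eta_lo p hl]
        nlinarith
      · have := ψ_mono t H (T_mono (update_le_self_iff.2 hl.le : update τ s(y, z) p.lo ≤ τ) o x)
        rw [eta_hi p hl]
        nlinarith
    · rw [Set.indicator_of_notMem hA]
      simp

end MART

open MART in
theorem bMART : St_MART := by
  classical
  intro p o x a π α t H lam I hl hH hπ hα hadj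
  have nC := ψ_nice t hH o x
  have nx : ∀ i ∈ I, Nice fun τ => xi p o a i.1 i.2 τ := fun i _ => xi_nice p o a _ _
  have nX := FP95.Nice.sum I nx
  have e1 : ∫ τ, ψ t H (T τ o x) * ψ t H (T τ o x) ∂p.P ≤ H ^ 2 * α := by
    refine le_trans ?_ (mul_le_mul_of_nonneg_left hα (sq_nonneg H))
    rw [← p.int_ind (meas_lt o x t), ← integral_const_mul]
    refine integral_mono ((nC.mul nC).int _) (((Nice.ind (meas_lt o x t)).int _).const_mul _)
      fun τ => ?_
    by_cases h : τ ∈ {τ | T τ o x < t}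
    · simp only [Set.indicator_of_mem h]
      have := abs_le.1 (ψ_abs t hH (T τ o x))
      nlinarith
    · simp only [Set.indicator_of_notMem h, ψ_top hH (not_lt.1 h), mul_zero, le_refl]
  have e2 : ∫ τ, (∑ i ∈ I, xi p o a i.1 i.2 τ) * (∑ i ∈ I, xi p o a i.1 i.2 τ) ∂p.P ≤
      π * I.card := by
    simp only [sum_mul_sum]
    rw [integral_finsetSum _ fun i hi =>
      (FP95.Nice.sum I fun j hj => (nx i hi).mul (nx j hj)).int _, mul_comm, ← nsmul_eq_mul]
    refine sum_le_card_nsmul _ _ _ fun i hi => ?_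
    rw [integral_finsetSum _ fun j hj => ((nx i hi).mul (nx j hj)).int _,
      sum_eq_single_of_mem i hi fun j hj hne => ?_]
    · exact (xi_sq p o a _ _).trans (hπ _)
    · exact xi_orth p o a fun k => hne (Prod.ext k.1 k.2).symm
  have e3 : p.q * p.d / 2 * ∑ i ∈ I,
      p.pr (p.Ev o x a i.1 i.2 ∩ {τ | t - H + p.d / 2 ≤ T τ o x ∧ T τ o x ≤ t}) ≤
      ∫ τ, ψ t H (T τ o x) * ∑ i ∈ I, xi p o a i.1 i.2 τ ∂p.P := by
    simp only [mul_sum]
    rw [integral_finsetSum _ fun i hi => (nC.mul (nx i hi)).int _]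
    exact sum_le_sum fun i hi => MART.cov p o x a t hH (hadj i hi)
  have j1 := ((nC.mul nC).int p.P).const_mul (lam / 2)
  have j2 := ((nX.mul nX).int p.P).const_mul (1 / (2 * lam))
  have e4 := integral_mono ((nC.mul nX).int p.P) (j1.add j2) fun τ => by
    show ψ t H (T τ o x) * _ ≤ lam / 2 * (ψ t H (T τ o x) * ψ t H (T τ o x)) +
      1 / (2 * lam) * (_ * _)
    generalize ψ t H (T τ o x) = u
    generalize ∑ i ∈ I, xi p o a i.1 i.2 τ = v
    have : lam / 2 * (u * u) + 1 / (2 * lam) * (v * v) - u * v = (lam * u - v) ^ 2 / (2 * lam) := by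
      field_simp; ring
    have h2 : 0 ≤ (lam * u - v) ^ 2 / (2 * lam) := by positivity
    linarith
  simp only [Pi.add_apply] at e4
  rw [integral_add j1 j2, integral_const_mul, integral_const_mul] at e4
  have e5 := mul_le_mul_of_nonneg_left e1 (by positivity : 0 ≤ lam / 2)
  have e6 := mul_le_mul_of_nonneg_left e2 (by positivity : 0 ≤ 1 / (2 * lam))
  have e7 : 1 / (2 * lam) * (π * I.card) = π / (2 * lam) * I.card := by ring
  linarith

end Pool.Agent.Lib.SB97
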