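import Pool.Agent.Lib.SB97.Blue
import Pool.Agent.Lib.SL94.B_PEI

/-! The Peierls bound for paths from one site. -/

namespace Pool.Agent.Lib.SB97

open MeasureTheory ProbabilityTheory Finset Pool.Agent.Lib.FP95
open Pool.Agent.Lib.MP_eba68f_pr hiding Nice
open scoped NNReal ENNReal

theorem bPEI : St_PEI := by
  intro p hi hp y l
  classical
  set I := (SL94.PEI.fam l y).filter fun E => l ≤ 2 * E.card with hI
  have hsub : Light hi y l ⊆ ⋃ E ∈ I, {τ : Cfg | ∀ e ∈ E, τ e ≤ hi} := by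
    rintro τ ⟨u, rfl, ⟨h1, h2⟩, h4⟩
    set J := (range l).filter fun j => τ s(u j, u (j + 1)) ≤ hi with hJ
    have hJ1 : ∀ j ∈ J, j < l := fun j hj => mem_range.1 (mem_filter.1 hj).1
    have hm := SL94.PEI.mem_fam l u J h1 hJ1
    have hc : (J.image fun j => s(u j, u (j + 1))).card = J.card := by
      refine card_image_of_injOn fun i hi j hj hij => ?_
      have a1 := hJ1 i hi
      have a2 := hJ1 j hj
      rcases Sym2.eq_iff.1 hij with ⟨h, -⟩ | ⟨h, h'⟩
      · exact h2 i j (by omega) (by omega) h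
      · have b1 := h2 i (j + 1) (by omega) (by omega) h
        have b2 := h2 (i + 1) j (by omega) (by omega) h'
        omega
    refine Set.mem_iUnion₂.2 ⟨J.image fun j => s(u j, u (j + 1)), mem_filter.2
      ⟨by convert hm, by rw [hc]; exact h4⟩, fun e he => ?_⟩
    obtain ⟨j, hj, rfl⟩ := mem_image.1 he
    exact (mem_filter.1 hj).2
  have hone : ∀ E ∈ I, p.pr {τ : Cfg | ∀ e ∈ E, τ e ≤ hi} ≤ (1 / 16) ^ l := by
    intro E hE
    rw [SL94.pr_all]
    refine (pow_le_pow_left₀ measureReal_nonneg (hp.trans_eq (by norm_num : (1 / 256 : ℝ) =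
      (1 / 16) ^ 2)) _).trans ?_
    rw [← pow_mul]
    exact pow_le_pow_of_le_one (by norm_num) (by norm_num) (mem_filter.1 hE).2
  have hcard : (I.card : ℝ) ≤ 8 ^ l := by
    exact_mod_cast (card_filter_le _ _).trans (SL94.PEI.card_fam l y)
  refine (p.pr_mono hsub).trans ((p.pr_biUnion_le _ _).trans ?_)
  refine (sum_le_card_nsmul _ _ _ hone).trans ?_
  rw [nsmul_eq_mul, show (1 / 2 : ℝ) = 8 * (1 / 16) by norm_num, mul_pow]
  exact mul_le_mul_of_nonneg_right hcard (by positivity)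

end Pool.Agent.Lib.SB97
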