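import Pool.Agent.Lib.SB97.Blue

/-! Row RATE: from the bound along the scales to the stretched exponential of the logarithm. -/

namespace Pool.Agent.Lib.SB97

theorem bRATE : St_RATE := by
  intro c C hc
  have hC : (0 : ℝ) ≤ C := Nat.cast_nonneg C
  obtain ⟨D, hD⟩ : ∃ D : ℝ, D = C + 1 := ⟨_, rfl⟩
  have hD1 : 1 ≤ D := by linarith
  have hD0 : 0 < D := by linarith
  have ha : 0 ≤ |Real.log c| := abs_nonneg _
  obtain ⟨X, hX⟩ : ∃ X : ℝ, X = 2 * D * (1 + |Real.log c|) := ⟨_, rfl⟩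
  have hX0 : 0 ≤ X := by rw [hX]; positivity
  refine ⟨1 / (2 * D), by positivity, Real.exp (X ^ 3), fun N s hN h => ?_⟩
  have hN0 : 0 < N := (Real.exp_pos _).trans_le hN
  have hL : X ^ 3 ≤ Real.log N := (Real.le_log_iff_exp_le hN0).2 hN
  have hL0 : 0 ≤ Real.log N := (pow_nonneg hX0 3).trans hL
  obtain ⟨x, hx⟩ : ∃ x : ℝ, x = Real.log N ^ (1 / 3 : ℝ) := ⟨_, rfl⟩
  rw [← hx]
  have hx0 : 0 ≤ x := by rw [hx]; exact Real.rpow_nonneg hL0 _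
  have hx3 : x ^ 3 = Real.log N := by
    rw [hx, ← Real.rpow_natCast, ← Real.rpow_mul hL0]
    norm_num
  have hXx : X ≤ x := by
    rw [← hx3] at hL
    exact (pow_le_pow_iff_left₀ hX0 hx0 (by norm_num)).1 hL
  obtain ⟨y, hy⟩ : ∃ y : ℝ, y = x / D := ⟨_, rfl⟩
  have hyx : y * D = x := by rw [hy]; field_simp
  have hy2 : 2 * (1 + |Real.log c|) ≤ y := by
    rw [hy, le_div_iff₀ hD0]
    linarith
  have hy0 : 0 ≤ y := by linarith
  have hk1 : 1 ≤ ⌊y⌋₊ := Nat.le_floor (by push_cast; linarith)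
  have hk2 : (⌊y⌋₊ : ℝ) ≤ y := Nat.floor_le hy0
  have hk3 : y < ⌊y⌋₊ + 1 := Nat.lt_floor_add_one y
  have h1 : ((C * ⌊y⌋₊ ^ 3 : ℕ) : ℝ) ≤ Real.log N := by
    have b1 : (⌊y⌋₊ : ℝ) ^ 3 ≤ y ^ 3 := pow_le_pow_left₀ (Nat.cast_nonneg _) hk2 3
    have b2 : (C : ℝ) ≤ D ^ 3 := le_trans (by linarith) (le_self_pow₀ hD1 (by norm_num))
    rw [← hx3, ← hyx, mul_pow, mul_comm (y ^ 3)]
    push_cast
    exact mul_le_mul b2 b1 (by positivity) (by positivity)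
  have h2 : (2 : ℝ) ≤ Real.exp 1 := by linarith [Real.add_one_le_exp (1 : ℝ)]
  have h3 : (2 : ℝ) ^ (C * ⌊y⌋₊ ^ 3) ≤ N := by
    refine (pow_le_pow_left₀ (by norm_num) h2 _).trans ?_
    rw [← Real.exp_nat_mul, mul_one]
    exact (Real.le_log_iff_exp_le hN0).1 h1
  refine le_trans ?_ (h _ hk1 h3)
  have h4 : Real.exp 1 ≤ 4 := by linarith [Real.exp_one_lt_d9]
  have h5 : Real.exp (⌊y⌋₊ : ℝ) ≤ 4 ^ ⌊y⌋₊ := by
    refine le_trans ?_ (pow_le_pow_left₀ (Real.exp_pos 1).le h4 _)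
    rw [← Real.exp_nat_mul, mul_one]
  have h6 : 1 / (2 * D) * x = y / 2 := by rw [← hyx]; field_simp
  calc Real.exp (1 / (2 * D) * x) ≤ Real.exp (Real.log c + ⌊y⌋₊) := by
        rw [h6]
        exact Real.exp_le_exp.2 (by linarith [neg_abs_le (Real.log c)])
    _ = c * Real.exp (⌊y⌋₊ : ℝ) := by rw [Real.exp_add, Real.exp_log hc]
    _ ≤ c * 4 ^ ⌊y⌋₊ := mul_le_mul_of_nonneg_left h5 hc.le

end Pool.Agent.Lib.SB97
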