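import Pool.Agent.Lib.SB97.Blue
import Pool.Agent.Lib.SL94.B_SEG

/-! Row SEG: the piece of a nearly optimal path in one shell. -/

namespace Pool.Agent.Lib.SB97

open Finset SimpleGraph Pool.Agent.Lib.FP95
open Pool.Agent.Lib.MP_eba68f_pr hiding Nice
open Pool.Agent.Lib.SL94 (SW T exists_lt)

namespace SEG

lemma n1_le {u v : V} (o : V) (q : G.Walk u v) (a j : ℕ) (h : a + j ≤ q.length) :
    n1 (q.getVert (a + j) - o) ≤ n1 (q.getVert a - o) + j := by
  induction j with
  | zero => simp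
  | succ j ih =>
    have h1 := ih (by omega)
    have h2 := n1_adj (q.adj_getVert_succ (i := a + j) (by omega))
    have h3 := n1_add_le (q.getVert (a + j) - o) (q.getVert (a + j + 1) - q.getVert (a + j))
    rw [sub_add_sub_cancel', h2] at h3
    rw [← add_assoc]
    push_cast
    linarith

end SEG

theorem bSEG : St_SEG := by
  intro τ u v w i s hw hs hv
  classical
  obtain ⟨q, hp, hq⟩ := exists_lt (τ := τ) (u := u) (v := v) (lt_add_of_pos_right _ hs)
  have h0 : n1 (q.getVert 0 - u) ≤ ((i * w : ℕ) : ℝ) := by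
    rw [Walk.getVert_zero, sub_self]
    simp only [n1, Pi.zero_apply, Int.cast_zero, abs_zero, add_zero]
    positivity
  set t := Nat.findGreatest (fun j => n1 (q.getVert j - u) ≤ ((i * w : ℕ) : ℝ)) q.length with ht
  have t1 : t ≤ q.length := Nat.findGreatest_le _
  have t2 : n1 (q.getVert t - u) ≤ ((i * w : ℕ) : ℝ) :=
    Nat.findGreatest_spec (P := fun j => n1 (q.getVert j - u) ≤ ((i * w : ℕ) : ℝ))
      (Nat.zero_le _) h0
  have t3 : ∀ j, t < j → j ≤ q.length → ((i * w : ℕ) : ℝ) < n1 (q.getVert j - u) := fun j h1 h2 =>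
    not_le.1 (Nat.findGreatest_is_greatest
      (P := fun j => n1 (q.getVert j - u) ≤ ((i * w : ℕ) : ℝ)) h1 h2)
  have e : (((i + 1) * w : ℕ) : ℝ) = ((i * w : ℕ) : ℝ) + w := by push_cast; ring
  have t4 : t + w ≤ q.length := by
    obtain ⟨j, hj⟩ := Nat.exists_eq_add_of_le t1
    have h1 := SEG.n1_le u q t j hj.ge
    rw [← hj, Walk.getVert_length] at h1
    have h2 : (w : ℝ) ≤ j := by linarith
    have h3 : w ≤ j := by exact_mod_cast h2
    omega
  refine ⟨fun j => q.getVert (t + 1 + j), ⟨fun j hj => ?_, fun a b ha hb h => ?_⟩, fun j hj =>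
    ⟨t3 _ (by omega) (by omega), ?_⟩, fun j hj => ?_⟩
  · exact q.adj_getVert_succ (i := t + 1 + j) (by omega)
  · have := hp.getVert_injOn (show t + 1 + a ≤ q.length by omega)
      (show t + 1 + b ≤ q.length by omega) h
    omega
  · have h1 := SEG.n1_le u q t (1 + j) (by omega)
    rw [← add_assoc] at h1
    have h2 : ((1 + j : ℕ) : ℝ) ≤ w := by exact_mod_cast (by omega : 1 + j ≤ w)
    rw [e]
    linarith
  · have a1 := SL94.SEG.T_le_sum τ q (Nat.zero_le (t + 1 + j)) (by omega)
    have a2 := SL94.SEG.T_le_sum τ q (a := t + 1 + j + 1) (b := q.length) (by omega) le_rfl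
    rw [Walk.getVert_zero] at a1
    rw [Walk.getVert_length] at a2
    have a4 := sum_Ico_succ_top (Nat.zero_le (t + 1 + j))
      (fun j => (τ s(q.getVert j, q.getVert (j + 1)) : ℝ))
    have a5 := sum_Ico_consecutive (fun j => (τ s(q.getVert j, q.getVert (j + 1)) : ℝ))
      (Nat.zero_le (t + 1 + j + 1)) (show t + 1 + j + 1 ≤ q.length by omega)
    rw [SL94.SEG.SW_eq, range_eq_Ico] at hq
    show T τ u (q.getVert (t + 1 + j)) + τ s(q.getVert (t + 1 + j), q.getVert (t + 1 + j + 1)) +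
      T τ (q.getVert (t + 1 + j + 1)) v ≤ T τ u v + s
    linarith

end Pool.Agent.Lib.SB97
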