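import Pool.Agent.Lib.SB97.Blue

/-! Mass below the median gives variance. -/

namespace Pool.Agent.Lib.SB97

open MeasureTheory ProbabilityTheory Filter Topology Finset Pool.Agent.Lib.FP95
open Pool.Agent.Lib.MP_eba68f_pr hiding Nice
open Pool.Agent.Lib.SL94 (SW T Sys)
open scoped NNReal ENNReal

theorem bVAR : St_VAR := by
  intro p u v t g β hL hg ht hβ
  have hV : 0 ≤ variance (fun τ => T τ u v) p.P := variance_nonneg _ _
  rcases hg.eq_or_lt with rfl | hg
  · simp [hV]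
  have hc : 0 < g / 2 := half_pos hg
  have h1 : p.pr {τ | g / 2 ≤ |T τ u v - ∫ τ', T τ' u v ∂p.P|} ≤
      variance (fun τ => T τ u v) p.P / (g / 2) ^ 2 :=
    ENNReal.toReal_le_of_le_ofReal (by positivity) (meas_ge_le_variance_div_sq hL hc)
  rw [le_div_iff₀ (by positivity)] at h1
  have hg2 : 0 < g ^ 2 := by positivity
  rcases le_total (t - g / 2) (∫ τ', T τ' u v ∂p.P) with hm | hm
  · have h2 : β ≤ p.pr {τ | g / 2 ≤ |T τ u v - ∫ τ', T τ' u v ∂p.P|} :=
      hβ.trans (p.pr_mono fun τ (hτ : T τ u v ≤ t - g) =>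
        show g / 2 ≤ |T τ u v - ∫ τ', T τ' u v ∂p.P| from le_abs.2 (Or.inr (by linarith)))
    nlinarith
  · have h2 : p.pr {τ | T τ u v < t}ᶜ ≤ p.pr {τ | g / 2 ≤ |T τ u v - ∫ τ', T τ' u v ∂p.P|} :=
      p.pr_mono fun τ (hτ : ¬ T τ u v < t) =>
        show g / 2 ≤ |T τ u v - ∫ τ', T τ' u v ∂p.P| from
          le_abs.2 (Or.inl (by linarith [not_lt.1 hτ]))
    have h3 : p.pr {τ | T τ u v < t}ᶜ = 1 - p.pr {τ | T τ u v < t} :=
      probReal_compl_eq_one_sub (SL94.meas_lt u v t)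
    have h4 : β ≤ 1 := hβ.trans measureReal_le_one
    nlinarith

end Pool.Agent.Lib.SB97
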