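import Pool.Agent.Lib.SB97.B_QUANT
import Pool.Agent.Lib.SB97.B_HAR
import Pool.Agent.Lib.SB97.B_MART
import Pool.Agent.Lib.SB97.B_PEI
import Pool.Agent.Lib.SB97.B_LOC
import Pool.Agent.Lib.SB97.B_DT
import Pool.Agent.Lib.SB97.B_SEG
import Pool.Agent.Lib.SB97.B_DET
import Pool.Agent.Lib.SB97.B_MARK
import Pool.Agent.Lib.SB97.B_DICH
import Pool.Agent.Lib.SB97.B_CONCAT
import Pool.Agent.Lib.SB97.B_LIN2
import Pool.Agent.Lib.SB97.B_PLANT
import Pool.Agent.Lib.SB97.B_RESET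
import Pool.Agent.Lib.SB97.B_STEP
import Pool.Agent.Lib.SB97.B_ITER
import Pool.Agent.Lib.SB97.B_VAR
import Pool.Agent.Lib.SB97.B_TOP
import Pool.Agent.Lib.SB97.B_ARITH
import Pool.Agent.Lib.SB97.B_RATE
import Pool.Agent.Lib.SB18.Zero

/-! Assembly of the rows. -/

namespace Pool.Agent.Lib.SB97

theorem st_DICH : St_DICH := bDICH bQUANT bPEI (bDET bDT bSEG) (bMARK bMART bDT)

theorem st_RESET : St_RESET := bRESET bHAR st_DICH (bLOC bPEI) (bPLANT bHAR)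

theorem st_ITER : St_ITER := bITER (bSTEP (bCONCAT bHAR st_DICH) st_RESET)

theorem st_FIN0 : St_FIN0 := bFIN0 bLIN2 (bTOP bQUANT st_ITER st_RESET bVAR) bARITH bRATE

end Pool.Agent.Lib.SB97
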