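import Pool.Agent.Lib.SB97.Blue

/-! The bound for a system from the last round, the choice of parameters and the rate. -/

namespace Pool.Agent.Lib.SB97

open MeasureTheory ProbabilityTheory Filter Topology Finset Pool.Agent.Lib.FP95
open Pool.Agent.Lib.MP_eba68f_pr hiding Nice
open Pool.Agent.Lib.SL94 (SW T Sys)
open scoped NNReal ENNReal

theorem bCORE (hL : St_LIN) (hT : St_TOP) (hA : St_ARITH) (hR : St_RATE) : St_CORE := by
  intro p hr hi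
  obtain ⟨K, hK, hlin⟩ := hL p.toPar hi
  have hq : 0 < p.q := p.q_pos'
  have hq1 : p.q ≤ 1 := p.q_le
  have hd : 0 < p.d := p.d_pos
  have hhi : (0 : ℝ) < p.hi := lt_of_le_of_lt p.lo.coe_nonneg (NNReal.coe_lt_coe.2 p.lo_lt)
  obtain ⟨C₀, h2, hC₀⟩ : ∃ C₀ : ℕ, 2 ≤ C₀ ∧ 12 * K + p.d ≤ p.hi * C₀ := by
    obtain ⟨n, hn⟩ := exists_nat_ge ((12 * K + p.d) / p.hi)
    refine ⟨n + 2, by omega, ?_⟩
    rw [div_le_iff₀ hhi] at hn
    push_cast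
    nlinarith
  have hc0 : 0 < (p.q / 2560) ^ 2 := by positivity
  have hc1 : (p.q / 2560) ^ 2 ≤ 1 := pow_le_one₀ (by positivity) (by linarith)
  obtain ⟨C, hC⟩ := hA _ C₀ hc0 hc1
  obtain ⟨c, hc, N, hN⟩ :=
    hR (p.q ^ 2 * ((p.q / 2560) ^ 2) ^ 3 * p.d ^ 2 / 1024) C (by positivity)
  refine ⟨c, hc, N, fun x hx hm => hN _ _ hx fun k hk hk2 => ?_⟩
  obtain ⟨M, ρ₀, a1, a2, a3, a4⟩ := hC k hk
  refine hT p hr K C₀ ρ₀ M k hK hlin h2 hC₀ hk a1 a2 a3 x (le_trans ?_ hk2) hm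
  exact_mod_cast a4

end Pool.Agent.Lib.SB97
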