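import Pool.Agent.Lib.SB97.Blue
import Pool.Agent.Lib.SL94.B_FIN

/-! Row FIN: back to the definitions of the hand-in. -/

namespace Pool.Agent.Lib.SB97

open MeasureTheory ProbabilityTheory Filter Topology Pool.Agent.Lib.FP95
open Pool.Agent.Lib.MP_eba68f_pr hiding Nice
open Pool.Agent.Lib.SL94 (SW T Sys T_meas)
open scoped NNReal ENNReal

theorem bFIN (hC : St_CORE) : St_FIN := by
  intro F _ r hI hz hFr hs h0
  obtain ⟨hi, rh, -, hh⟩ := SL94.FIN.level F r (r + 1) hFr (lt_add_one r) _ h0
  have rh' : (r : ℝ) < hi := rh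
  have l1 : r < (r + hi) / 2 := by rw [← NNReal.coe_lt_coe]; push_cast; linarith
  have l2 : (r + hi) / 2 < hi := by rw [← NNReal.coe_lt_coe]; push_cast; linarith
  let p : Sys :=
    { F := F
      prob := inferInstance
      r := 1
      b := 1
      r_pos := one_pos
      r_le := le_rfl
      r0 := r
      lo := (r + hi) / 2
      hi := hi
      lo_lt := l2
      mid := by push_cast; linarith
      zero := hz
      supp := hFr
      q_pos := ENNReal.toReal_pos (hs _ l1).ne' (measure_ne_top _ _) }
  have hR : Rare p := ENNReal.toReal_le_of_le_ofReal (by norm_num) (hh.le.trans_eq (by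
    rw [ENNReal.ofReal_div_of_pos (by norm_num)]; simp))
  obtain ⟨c, c0, N, h⟩ := hC p hR hI
  refine ⟨c, c0, N, fun v hv => ?_⟩
  have e := (SL94.FIN.ident p.toPar v).evariance_eq
  refine le_trans ?_ e.ge
  rcases eq_or_ne (evariance (fun τ => T τ 0 v) p.P) ⊤ with ht | ht
  · exact le_top.trans ht.ge
  · have hm : MemLp (fun τ => T τ 0 v) 2 p.P :=
      (evariance_lt_top_iff_memLp (T_meas 0 v).aestronglyMeasurable).1 ht.lt_top
    rw [← ofReal_variance hm]
    exact ENNReal.ofReal_le_ofReal (h v hv hm)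

end Pool.Agent.Lib.SB97
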