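import Pool.Agent.Lib.SB97.Blue

/-! Row LIN: a finite mean of the weights gives medians of linear size. -/

namespace Pool.Agent.Lib.SB97

open MeasureTheory ProbabilityTheory Finset Pool.Agent.Lib.FP95
open Pool.Agent.Lib.MP_eba68f_pr hiding Nice
open Pool.Agent.Lib.SL94 (SW T Sys)
open scoped NNReal ENNReal

namespace LIN

theorem one (p : Par) (h : Integrable (fun t : ℝ≥0 => (t : ℝ)) p.F) (e : Sym2 V) :
    Integrable (fun τ : Cfg => (τ e : ℝ)) p.P ∧
      ∫ τ : Cfg, (τ e : ℝ) ∂p.P = ∫ t : ℝ≥0, (t : ℝ) ∂p.F := by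
  have hm : MeasurePreserving (fun τ : Cfg => τ e) p.P p.F :=
    measurePreserving_eval_infinitePi (fun _ : Sym2 V => p.F) e
  refine ⟨hm.integrable_comp_of_integrable h, ?_⟩
  rw [← hm.map_eq, integral_map hm.measurable.aemeasurable
    NNReal.continuous_coe.measurable.aestronglyMeasurable]

theorem list (p : Par) (h : Integrable (fun t : ℝ≥0 => (t : ℝ)) p.F) (l : List (Sym2 V)) :
    Integrable (fun τ : Cfg => SW τ l) p.P ∧
      ∫ τ : Cfg, SW τ l ∂p.P = (∫ t : ℝ≥0, (t : ℝ) ∂p.F) * l.length := by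
  induction l with
  | nil => simp
  | cons e l ih =>
    simp only [SL94.SW_cons, List.length_cons, Nat.cast_add, Nat.cast_one]
    refine ⟨(one p h e).1.add ih.1, ?_⟩
    rw [integral_add (one p h e).1 ih.1, (one p h e).2, ih.2]
    ring

end LIN

theorem bLIN : St_LIN := by
  intro p h
  have h0 : 0 ≤ ∫ t : ℝ≥0, (t : ℝ) ∂p.F := integral_nonneg fun t => t.coe_nonneg
  refine ⟨2 * (∫ t : ℝ≥0, (t : ℝ) ∂p.F) + 1, by linarith, fun u v t ht => ?_⟩
  obtain ⟨q, hq⟩ := exists_walk u v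
  obtain ⟨h1, h2⟩ := LIN.list p h q.edges
  rw [SimpleGraph.Walk.length_edges, hq] at h2
  have h3 := mul_meas_ge_le_integral_of_nonneg
    (Filter.Eventually.of_forall fun τ => SL94.SW_nonneg τ q.edges) h1 t
  have h4 : p.pr Set.univ ≤ p.pr ({τ | T τ u v < t} ∪ {τ | t ≤ SW τ q.edges}) :=
    p.pr_mono fun τ _ => by
      by_cases k : T τ u v < t
      · exact Or.inl k
      · exact Or.inr ((not_lt.1 k).trans (SL94.T_le_SW τ q))
  have h5 := p.pr_union_le {τ | T τ u v < t} {τ | t ≤ SW τ q.edges}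
  rw [p.pr_univ] at h4
  have h6 : 1 / 2 ≤ p.P.real {τ | t ≤ SW τ q.edges} := by
    change 1 / 2 ≤ p.pr {τ | t ≤ SW τ q.edges}
    linarith
  have h7 := n1_nonneg (v - u)
  have h8 := mul_nonneg h0 h7
  rcases le_total t 0 with k | k
  · nlinarith
  · have h9 := mul_le_mul_of_nonneg_left h6 k
    rw [h2] at h3
    nlinarith

end Pool.Agent.Lib.SB97
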