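import Pool.Agent.Lib.SB97.Blue
import Pool.Agent.Lib.SL94.B_QUANT

/-! Row QUANT: real quantiles of the passage times. -/

namespace Pool.Agent.Lib.SB97

open MeasureTheory ProbabilityTheory Filter Topology Function Pool.Agent.Lib.FP95
open Pool.Agent.Lib.MP_eba68f_pr hiding Nice
open Pool.Agent.Lib.SL94 (SW T Sys T_nonneg meas_lt)
open scoped NNReal ENNReal

namespace QUANT

/-- the upper quantile -/
noncomputable def QQ (p : Par) (π : ℝ) (u v : V) : ℝ := sSup {t | p.pr {τ | T τ u v < t} ≤ π}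

theorem mono (p : Par) (u v : V) {s t : ℝ} (h : s ≤ t) :
    p.pr {τ | T τ u v < s} ≤ p.pr {τ | T τ u v < t} :=
  p.pr_mono fun _ hτ => lt_of_lt_of_le hτ h

theorem ne (p : Par) (u v : V) {π : ℝ} (h0 : 0 ≤ π) :
    (0 : ℝ) ∈ {t | p.pr {τ | T τ u v < t} ≤ π} := by
  have e : {τ : Cfg | T τ u v < 0} = ∅ :=
    Set.eq_empty_of_forall_notMem fun τ hτ => absurd hτ (not_lt.2 (T_nonneg τ u v))
  show p.pr {τ | T τ u v < 0} ≤ π
  rw [e]
  simpa [Par.pr] using h0

theorem bdd (p : Par) (u v : V) {π : ℝ} (h1 : π < 1) :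
    BddAbove {t | p.pr {τ | T τ u v < t} ≤ π} := by
  obtain ⟨j, hj⟩ := ((SL94.QUANT.lim p u v).eventually (lt_mem_nhds h1)).exists
  refine ⟨(j : ℝ) + 1, fun t ht => le_of_not_gt fun h => ?_⟩
  exact absurd ((mono p u v h.le).trans ht) (not_le.2 hj)

theorem lt (p : Par) (u v : V) {π : ℝ} (h0 : 0 ≤ π) :
    p.pr {τ | T τ u v < QQ p π u v} ≤ π := by
  have hm : Monotone fun j : ℕ => {τ : Cfg | T τ u v < QQ p π u v - 1 / ((j : ℝ) + 1)} :=
    fun i j h τ hτ => by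
      have h1 : 1 / ((j : ℝ) + 1) ≤ 1 / ((i : ℝ) + 1) := Nat.one_div_le_one_div h
      have h2 : T τ u v < QQ p π u v - 1 / ((i : ℝ) + 1) := hτ
      show T τ u v < QQ p π u v - 1 / ((j : ℝ) + 1)
      linarith
  have hu : (⋃ j : ℕ, {τ : Cfg | T τ u v < QQ p π u v - 1 / ((j : ℝ) + 1)}) =
      {τ | T τ u v < QQ p π u v} := by
    ext τ
    simp only [Set.mem_iUnion, Set.mem_ofPred_eq]
    constructor
    · rintro ⟨j, hj⟩
      have : (0 : ℝ) < 1 / ((j : ℝ) + 1) := Nat.one_div_pos_of_nat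
      linarith
    · intro h
      obtain ⟨j, hj⟩ := exists_nat_one_div_lt (sub_pos.2 h)
      exact ⟨j, by linarith⟩
  have h := tendsto_measure_iUnion_atTop (μ := p.P) hm
  rw [hu] at h
  refine le_of_tendsto' ((ENNReal.tendsto_toReal (measure_ne_top _ _)).comp h) fun j => ?_
  have h3 : QQ p π u v - 1 / ((j : ℝ) + 1) < QQ p π u v :=
    sub_lt_self _ Nat.one_div_pos_of_nat
  obtain ⟨t, ht, h4⟩ := exists_lt_of_lt_csSup ⟨0, ne p u v h0⟩ h3
  exact (mono p u v h4.le).trans ht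

theorem gt (p : Par) (u v : V) {π t : ℝ} (h1 : π < 1) (h : QQ p π u v < t) :
    π < p.pr {τ | T τ u v < t} :=
  lt_of_not_ge fun h2 => absurd (le_csSup (bdd p u v h1) h2) (not_le.2 h)

theorem le (p : Par) (u v : V) {π : ℝ} (h1 : π < 1) :
    π ≤ p.pr {τ | T τ u v ≤ QQ p π u v} := by
  have hm : Antitone fun j : ℕ => {τ : Cfg | T τ u v < QQ p π u v + 1 / ((j : ℝ) + 1)} :=
    fun i j h τ hτ => by
      have h1 : 1 / ((j : ℝ) + 1) ≤ 1 / ((i : ℝ) + 1) := Nat.one_div_le_one_div h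
      have h2 : T τ u v < QQ p π u v + 1 / ((j : ℝ) + 1) := hτ
      show T τ u v < QQ p π u v + 1 / ((i : ℝ) + 1)
      linarith
  have hu : (⋂ j : ℕ, {τ : Cfg | T τ u v < QQ p π u v + 1 / ((j : ℝ) + 1)}) =
      {τ | T τ u v ≤ QQ p π u v} := by
    ext τ
    simp only [Set.mem_iInter, Set.mem_ofPred_eq]
    constructor
    · intro h
      refine le_of_not_gt fun h' => ?_
      obtain ⟨j, hj⟩ := exists_nat_one_div_lt (sub_pos.2 h')
      linarith [h j]
    · intro h j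
      have : (0 : ℝ) < 1 / ((j : ℝ) + 1) := Nat.one_div_pos_of_nat
      linarith
  have h := tendsto_measure_iInter_atTop (μ := p.P)
    (fun j => (meas_lt u v _).nullMeasurableSet) hm ⟨0, measure_ne_top _ _⟩
  rw [hu] at h
  refine ge_of_tendsto' ((ENNReal.tendsto_toReal (measure_ne_top _ _)).comp h) fun j => ?_
  exact (gt p u v h1 (lt_add_of_pos_right _ Nat.one_div_pos_of_nat)).le

end QUANT

theorem bQUANT : St_QUANT := fun p u v α h0 h1 =>
  ⟨QUANT.QQ p α u v, QUANT.lt p u v h0.le, QUANT.le p u v h1⟩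

end Pool.Agent.Lib.SB97
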