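import Pool.Agent.Lib.SL94.Base

/-! Definitions and rows for the iterated variance bound in the plane. -/

namespace Pool.Agent.Lib.SB97

open MeasureTheory ProbabilityTheory Filter Topology Finset Pool.Agent.Lib.FP95
open Pool.Agent.Lib.MP_eba68f_pr hiding Nice
open Pool.Agent.Lib.SL94 (SW T Sys)
open scoped NNReal ENNReal

/-- `t` is a quantile of level `α` of the passage time from `u` to `v` -/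
def Qt (p : Par) (α : ℝ) (u v : V) (t : ℝ) : Prop :=
  p.pr {τ | T τ u v < t} ≤ α ∧ α ≤ p.pr {τ | T τ u v ≤ t}

/-- below every quantile of level `α ∈ [π, 1/2]` one gains `g` with probability `c α ^ k` -/
def Gain (p : Par) (g ρ π : ℝ) (k : ℕ) (c : ℝ) : Prop :=
  ∀ (u v : V) (α t : ℝ), ρ ≤ n1 (v - u) → π ≤ α → α ≤ 1 / 2 → Qt p α u v t →
    c * α ^ k ≤ p.pr {τ | T τ u v ≤ t - g}

/-- medians grow at most linearly -/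
def Lin (p : Par) (K : ℝ) : Prop :=
  ∀ (u v : V) (t : ℝ), p.pr {τ | T τ u v < t} ≤ 1 / 2 → t ≤ K * n1 (v - u)

/-- admissible pair of a level ratio and a window -/
def Adm (p : Sys) (θ H : ℝ) : Prop :=
  0 < θ ∧ θ ≤ 1 ∧ 0 < H ∧ (2560 * H) ^ 2 * θ ≤ (p.q * p.d) ^ 2

/-- light edges are rare -/
def Rare (p : Sys) : Prop := p.F.real (Set.Iic p.hi) ≤ 1 / 256

/-- a self-avoiding lattice path with `n` steps -/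
def Pth (n : ℕ) (g : ℕ → V) : Prop :=
  (∀ j, j < n → G.Adj (g j) (g (j + 1))) ∧ ∀ i j, i ≤ n → j ≤ n → g i = g j → i = j

/-- some self-avoiding path with `n` steps from `v` has half of its edges light -/
def Light (hi : ℝ≥0) (v : V) (n : ℕ) : Set Cfg :=
  {τ | ∃ g, g 0 = v ∧ Pth n g ∧ n ≤ 2 * ((range n).filter fun j => τ s(g j, g (j + 1)) ≤ hi).card}

open Classical in
/-- directed edges with both ends within distance `n` of `u` -/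
noncomputable def Dt (u : V) (n : ℕ) : Finset (V × V) :=
  (((ball n).image (· + u)).biUnion fun y => (nb y).image (Prod.mk y)).filter
    fun i => n1 (i.1 - u) ≤ n ∧ n1 (i.2 - u) ≤ n

open Classical in
/-- number of marked directed edges -/
noncomputable def cnt (p : Sys) (o x : V) (a : V → ℝ) (I : Finset (V × V)) (τ : Cfg) : ℕ :=
  (I.filter fun i => τ ∈ p.Ev o x a i.1 i.2).card

/-- the site lies in the shell number `i` of width `w` round `u` -/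
def Sh (u : V) (w i : ℕ) (y : V) : Prop :=
  ((i * w : ℕ) : ℝ) < n1 (y - u) ∧ n1 (y - u) ≤ (((i + 1) * w : ℕ) : ℝ)

/-- quantiles exist -/
def St_QUANT : Prop := ∀ (p : Par) (u v : V) (α : ℝ), 0 < α → α < 1 → ∃ t, Qt p α u v t

/-- Harris inequality for decreasing events -/
def St_HAR : Prop := ∀ (p : Par) (A B : Set Cfg), MeasurableSet A → MeasurableSet B →
  IsLowerSet A → IsLowerSet B → p.pr A * p.pr B ≤ p.pr (A ∩ B)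

/-- the martingale bound for the clamped passage time -/
def St_MART : Prop := ∀ (p : Sys) (o x : V) (a : V → ℝ) (π α t H lam : ℝ) (I : Finset (V × V)),
  0 < lam → 0 ≤ H → (∀ v, p.pr {τ | T τ o v < a v} ≤ π) → p.pr {τ | T τ o x < t} ≤ α →
  (∀ i ∈ I, G.Adj i.1 i.2) →
  p.q * p.d / 2 * ∑ i ∈ I,
      p.pr (p.Ev o x a i.1 i.2 ∩ {τ | t - H + p.d / 2 ≤ T τ o x ∧ T τ o x ≤ t}) ≤
    lam / 2 * (H ^ 2 * α) + π / (2 * lam) * I.card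

/-- Peierls bound from one site -/
def St_PEI : Prop := ∀ (p : Par) (hi : ℝ≥0), p.F.real (Set.Iic hi) ≤ 1 / 256 →
  ∀ (v : V) (n : ℕ), p.pr (Light hi v n) ≤ (1 / 2) ^ n

/-- the set of directed edges -/
def St_DT : Prop := ∀ (u : V) (n : ℕ),
  (∀ y z, (y, z) ∈ Dt u n ↔ G.Adj y z ∧ n1 (y - u) ≤ n ∧ n1 (z - u) ≤ n) ∧
    ((Dt u n).card : ℝ) ≤ 4 * (2 * (n : ℝ) + 1) ^ 2

/-- the piece of a nearly optimal path in one shell -/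
def St_SEG : Prop := ∀ (τ : Cfg) (u v : V) (w i : ℕ) (s : ℝ), 1 ≤ w → 0 < s →
  (((i + 1) * w : ℕ) : ℝ) ≤ n1 (v - u) →
  ∃ g, Pth (w - 1) g ∧ (∀ j, j ≤ w - 1 → Sh u w i (g j)) ∧ ∀ j, j < w - 1 →
    T τ u (g j) + τ s(g j, g (j + 1)) + T τ (g (j + 1)) v ≤ T τ u v + s

/-- good edges in half of the shells -/
def St_DET : Prop := ∀ (p : Sys) (τ : Cfg) (u v : V) (M w : ℕ) (a b : V → ℝ), 2 ≤ w →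
  (((M + 1) * w : ℕ) : ℝ) ≤ n1 (v - u) →
  (∀ y, n1 (y - u) ≤ (((M + 1) * w : ℕ) : ℝ) → τ ∉ Light p.hi y (w - 1)) →
  4 * (cnt p u v a (Dt u ((M + 1) * w)) τ + cnt p v u b (Dt u ((M + 1) * w)) τ) ≤ M * (w - 1) →
  ∃ (S : Finset ℕ) (y z : ℕ → V), M ≤ 2 * S.card ∧ ∀ i ∈ S, 1 ≤ i ∧ i ≤ M ∧ G.Adj (y i) (z i) ∧
    Sh u w i (y i) ∧ Sh u w i (z i) ∧ a (y i) + p.hi + b (z i) ≤ T τ u v + p.d / 2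

/-- few marked edges on the window event -/
def St_MARK : Prop := ∀ (p : Sys) (u v : V) (M w : ℕ) (a b : V → ℝ) (α θ t H : ℝ), 1 ≤ M → 2 ≤ w →
  0 < α → Adm p θ H → (∀ y, p.pr {τ | T τ u y < a y} ≤ α * θ) →
  (∀ z, p.pr {τ | T τ v z < b z} ≤ α * θ) → p.pr {τ | T τ u v < t} ≤ α →
  p.pr {τ | (t - H + p.d / 2 ≤ T τ u v ∧ T τ u v ≤ t) ∧ M * (w - 1) ≤
    4 * (cnt p u v a (Dt u ((M + 1) * w)) τ + cnt p v u b (Dt u ((M + 1) * w)) τ)} ≤ α / 8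

/-- the dichotomy -/
def St_DICH : Prop := ∀ (p : Sys), Rare p → ∀ (u v : V) (M w : ℕ) (α θ t H : ℝ), 1 ≤ M → 2 ≤ w →
  0 < α → α ≤ 1 / 2 → Adm p θ H → Qt p.toPar α u v t → (((M + 1) * w : ℕ) : ℝ) ≤ n1 (v - u) →
  200 * ((M : ℝ) * w) ^ 2 * (1 / 2) ^ (w - 1) ≤ α →
  α / 2 ≤ p.pr {τ | T τ u v ≤ t - H + p.d / 2} ∨
    ∃ (S : Finset ℕ) (y z : ℕ → V) (A B : ℕ → ℝ), M ≤ 2 * S.card ∧ ∀ i ∈ S, 1 ≤ i ∧ i ≤ M ∧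
      G.Adj (y i) (z i) ∧ Sh u w i (y i) ∧ Sh u w i (z i) ∧ Qt p.toPar (α * θ) u (y i) (A i) ∧
      Qt p.toPar (α * θ) (z i) v (B i) ∧ A i + p.hi + B i ≤ t + p.d / 2

/-- two halves -/
def St_CONCAT : Prop := ∀ (p : Sys), Rare p → ∀ (g π θ H : ℝ) (ρ : ℕ), Adm p θ H → θ ≤ p.q →
  θ ≤ 1 / 2 → 2 * g + p.d ≤ H → 2 ≤ ρ → 0 < π → 200 * (ρ : ℝ) ^ 2 * (1 / 2) ^ (ρ - 1) ≤ π →
  Gain p.toPar g ρ (π * θ) 2 (θ ^ 6) → Gain p.toPar (2 * g + p.d / 2) (3 * ρ) π 4 (θ ^ 17)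

/-- localisation -/
def St_LOC : Prop := ∀ (p : Sys), Rare p → ∀ (z y : V) (c : ℝ) (L : ℕ), 2 * c ≤ p.hi * L →
  ∃ Φ : Set Cfg, MeasurableSet Φ ∧ IsLowerSet Φ ∧
    (∀ τ τ' : Cfg, (∀ e ∈ near z L, τ e = τ' e) → τ ∈ Φ → τ' ∈ Φ) ∧
    (∀ τ ∈ Φ, T τ z y < c) ∧ p.pr {τ | T τ z y < c} - (1 / 2) ^ L ≤ p.pr Φ

/-- a finite mean gives linear medians -/
def St_LIN : Prop := ∀ (p : Par), Integrable (fun t : ℝ≥0 => (t : ℝ)) p.F → ∃ K, 0 < K ∧ Lin p K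

/-- planting independent local events -/
def St_PLANT : Prop := ∀ (p : Par) (S : Finset ℕ) (Φ W : ℕ → Set Cfg) (B : Set Cfg)
  (E : ℕ → Set (Sym2 V)) (β φ : ℝ), 0 < φ → 0 < β → MeasurableSet B →
  (∀ i ∈ S, MeasurableSet (Φ i) ∧ IsLowerSet (Φ i) ∧ MeasurableSet (W i) ∧ IsLowerSet (W i) ∧
    (E i).Finite ∧ (∀ τ τ' : Cfg, (∀ e ∈ E i, τ e = τ' e) → τ ∈ Φ i → τ' ∈ Φ i) ∧
    φ ≤ p.pr (Φ i) ∧ β ≤ p.pr (W i) ∧ Φ i ∩ W i ⊆ B) →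
  (∀ i ∈ S, ∀ j ∈ S, i ≠ j → Disjoint (E i) (E j)) → 4 ≤ β ^ 2 * S.card * φ → β / 2 ≤ p.pr B

/-- many places -/
def St_RESET : Prop := ∀ (p : Sys), Rare p → ∀ (K g π c : ℝ) (k ρ M w L : ℕ), 0 < K →
  Lin p.toPar K → 0 ≤ g → 0 < c → Gain p.toPar g ρ π k c →
  ∀ (u v : V) (α t θ₁ θ₂ H₁ H₂ : ℝ), 0 < α → α ≤ 1 / 2 → Qt p.toPar α u v t → Adm p θ₁ H₁ →
  Adm p θ₂ H₂ → π ≤ α * θ₁ * θ₂ → 1 ≤ M → 2 ≤ w → 2 ≤ ρ →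
  200 * ((M : ℝ) * w) ^ 2 * (1 / 2) ^ (w - 1) ≤ α →
  200 * (ρ : ℝ) ^ 2 * (1 / 2) ^ (ρ - 1) ≤ α * θ₁ → 4 * K * ρ + p.d ≤ p.hi * L → 2 * L ≤ w →
  (1 / 2) ^ L ≤ c * (α * θ₁ * θ₂) ^ k / 2 →
  32 ≤ (p.q ^ 2 * (α * θ₁) * (α * θ₁ * θ₂)) ^ 2 * M * (c * (α * θ₁ * θ₂) ^ k) →
  (((M + 1) * w + 2 * ρ : ℕ) : ℝ) ≤ n1 (v - u) →
  α / 2 ≤ p.pr {τ | T τ u v ≤ t - H₁ + p.d / 2} ∨
    p.q * (α * θ₁) ^ 2 / 2 ≤ p.pr {τ | T τ u v ≤ t - H₂} ∨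
    p.q ^ 2 * (α * θ₁) * (α * θ₁ * θ₂) / 2 ≤ p.pr {τ | T τ u v ≤ t - g}

/-- one round -/
def St_STEP : Prop := ∀ (p : Sys), Rare p → ∀ (K g π θ H : ℝ) (C₀ ρ M : ℕ), 0 < K →
  Lin p.toPar K → 2 ≤ C₀ → 12 * K + p.d ≤ p.hi * C₀ → Adm p θ H → θ ≤ p.q → θ ≤ 1 / 2 → 0 ≤ g →
  2 * g + p.d ≤ H → 2 ≤ ρ → 0 < π → π ≤ 1 → 32 ≤ π ^ 8 * θ ^ 35 * M →
  400 * (2 * (C₀ : ℝ) * M * ρ) ^ 2 * (1 / 2) ^ ρ ≤ π ^ 4 * θ ^ 25 →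
  Gain p.toPar g ρ (π * θ ^ 3) 2 (θ ^ 6) →
  Gain p.toPar (2 * g + p.d / 2) (((4 * C₀ + 6) * M * ρ : ℕ) : ℝ) π 2 (θ ^ 6)

/-- `n` rounds -/
def St_ITER : Prop := ∀ (p : Sys), Rare p → ∀ (K π θ H : ℝ) (C₀ ρ₀ M n : ℕ), 0 < K →
  Lin p.toPar K → 2 ≤ C₀ → 12 * K + p.d ≤ p.hi * C₀ → Adm p θ H → θ ≤ p.q → θ ≤ 1 / 2 →
  2 ^ n * p.d ≤ H → 2 ≤ ρ₀ → 0 < π → π ≤ 1 → 32 ≤ (π * θ ^ (3 * n)) ^ 8 * θ ^ 35 * M →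
  (∀ ρ : ℕ, ρ₀ ≤ ρ →
    400 * (2 * (C₀ : ℝ) * M * ρ) ^ 2 * (1 / 2) ^ ρ ≤ (π * θ ^ (3 * n)) ^ 4 * θ ^ 25) →
  Gain p.toPar ((2 ^ n - 1) * p.d / 2) ((((4 * C₀ + 6) * M) ^ n * ρ₀ : ℕ) : ℝ) π 2 (θ ^ 6)

/-- mass below the median gives variance -/
def St_VAR : Prop := ∀ (p : Par) (u v : V) (t g β : ℝ), MemLp (fun τ => T τ u v) 2 p.P → 0 ≤ g →
  p.pr {τ | T τ u v < t} ≤ 1 / 2 → β ≤ p.pr {τ | T τ u v ≤ t - g} →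
  β * g ^ 2 / 8 ≤ variance (fun τ => T τ u v) p.P

/-- the last round -/
def St_TOP : Prop := ∀ (p : Sys), Rare p → ∀ (K : ℝ) (C₀ ρ₀ M k : ℕ), 0 < K → Lin p.toPar K →
  2 ≤ C₀ → 12 * K + p.d ≤ p.hi * C₀ → 1 ≤ k → 2 ≤ ρ₀ →
  32 ≤ ((p.q / 2560) ^ 2 / 4 ^ (6 * k)) ^ (144 * k + 59) * M →
  (∀ ρ : ℕ, ρ₀ ≤ ρ → 400 * (2 * (C₀ : ℝ) * M * ρ) ^ 2 * (1 / 2) ^ ρ ≤
    ((p.q / 2560) ^ 2 / 4 ^ (6 * k)) ^ (72 * k + 37)) →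
  ∀ x : V, ((((4 * C₀ + 6) * M) ^ (6 * k + 1) * ρ₀ : ℕ) : ℝ) ≤ n1 x →
  MemLp (fun τ => T τ 0 x) 2 p.P →
  p.q ^ 2 * ((p.q / 2560) ^ 2) ^ 3 * p.d ^ 2 / 1024 * 4 ^ k ≤ variance (fun τ => T τ 0 x) p.P

/-- choice of the parameters -/
def St_ARITH : Prop := ∀ (c₀ : ℝ) (C₀ : ℕ), 0 < c₀ → c₀ ≤ 1 → ∃ C : ℕ, ∀ k : ℕ, 1 ≤ k →
  ∃ M ρ₀ : ℕ, 2 ≤ ρ₀ ∧ 32 ≤ (c₀ / 4 ^ (6 * k)) ^ (144 * k + 59) * M ∧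
    (∀ ρ : ℕ, ρ₀ ≤ ρ → 400 * (2 * (C₀ : ℝ) * M * ρ) ^ 2 * (1 / 2) ^ ρ ≤
      (c₀ / 4 ^ (6 * k)) ^ (72 * k + 37)) ∧
    ((4 * C₀ + 6) * M) ^ (6 * k + 1) * ρ₀ ≤ 2 ^ (C * k ^ 3)

/-- the rate -/
def St_RATE : Prop := ∀ (c : ℝ) (C : ℕ), 0 < c → ∃ c' : ℝ, 0 < c' ∧ ∃ N₀ : ℝ, ∀ N s : ℝ, N₀ ≤ N →
  (∀ k : ℕ, 1 ≤ k → (2 : ℝ) ^ (C * k ^ 3) ≤ N → c * 4 ^ k ≤ s) →
  Real.exp (c' * Real.log N ^ (1 / 3 : ℝ)) ≤ s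

/-- the bound for a system -/
def St_CORE : Prop := ∀ (p : Sys), Rare p → Integrable (fun t : ℝ≥0 => (t : ℝ)) p.F →
  ∃ c : ℝ, 0 < c ∧ ∃ N : ℝ, ∀ x : V, N ≤ n1 x → MemLp (fun τ => T τ 0 x) 2 p.P →
    Real.exp (c * Real.log (n1 x) ^ (1 / 3 : ℝ)) ≤ variance (fun τ => T τ 0 x) p.P

/-- the final statement -/
def St_FIN : Prop := ∀ (F : Measure ℝ≥0) [IsProbabilityMeasure F] (r : ℝ≥0),
  Integrable (fun t : ℝ≥0 => (t : ℝ)) F → F {0} = 0 → F (Set.Iio r) = 0 →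
  (∀ s, r < s → 0 < F (Set.Iic s)) → F {r} < 1 / 256 →
  ∃ c : ℝ, 0 < c ∧ ∃ N : ℝ, ∀ v : Fin 2 → ℤ, N ≤ |(v 0 : ℝ)| + |(v 1 : ℝ)| →
    ENNReal.ofReal (Real.exp (c * Real.log (|(v 0 : ℝ)| + |(v 1 : ℝ)|) ^ (1 / 3 : ℝ))) ≤
      evariance (fun τ => passage τ 0 v) (Measure.infinitePi fun _ : (lattice 2).edgeSet => F)

end Pool.Agent.Lib.SB97
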